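import Pool.Agent.L7h85.SG.Geo
import Pool.Agent.W534.PoleA

/-!
# The signature law: two more statements
-/

set_option linter.unusedVariables false
set_option linter.unusedSectionVars false

open CategoryTheory AlgebraicGeometry CategoryTheory.Limits

universe u v

namespace Pool.Agent.L7h85.SG

open Pool.Agent.H914 Pool.Agent.H914.VarClass Pool.Agent.H914.VarClass.Obj
  Pool.Agent.H914.WeilCohomology Pool.Agent.H281R3.HT Pool.Agent.W552 Pool.Agent.W539.Ker Module

variable {k : Type u} [Field k] {𝒱 : VarClass k} {ops : CycleOps 𝒱}

/-- [HDM] If `dim P = 2 d` then the numerical Hodge standard conjecture for `P` follows if the form is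
nowhere negative on the algebraic classes of codimension `d`. Proof: as for `S_HDG`; let `q` be the
class of a cycle `z` of codimension `j` which is primitive modulo numerical equivalence; it is
numerically equivalent to a primitive algebraic class `q₀` (the first term of the Lefschetz
decomposition), and the form at the class `D ^ (d - j) q₀` of codimension `d` is a positive multiple
of `(-1) ^ j q₀ q₀ D ^ (2 d - 2 j)`. -/
def S_HDM (W : WeilCohomology.{u, v} ops) : Prop := ∀ (P : PV W) (d : ℕ), P.X.dim = 2 * d →
  (∀ x, Mid P 1 x → ∃ q : ℚ, 0 ≤ q ∧ P.b x x = (q : W.K)) → NumHodge ops P.X P.D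

/-- [RNK] If `dim P = 2 d` then the maximal orthogonal families of algebraic classes of codimension
`d` (for the form `b`) have `numRank ops P.X d` members. Proof: by `numRank_eq` of `W534.PoleA` this number is
`kRank W P.X d d`, the rank of the cup product on the `K`-span `U` of the algebraic classes of
codimension `d`; the star operator `st` is a bijection of `U` onto itself, and `b x y` is
`± tr (x * st y)` (see `bf`), so this is the rank of `b` on `U`. The classes `y i` are linearly
independent, and `U` is the sum of their span and of the radical of `b`. -/
def S_RNK (W : WeilCohomology.{u, v} ops) : Prop := ∀ (P : PV W) (d : ℕ), P.X.dim = 2 * d →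
  ∀ (ι : Type) [Fintype ι] (y : ι → W.H P.X) (s : ι → ℚ), OF (Mid P 1) P.b y s →
    Fintype.card ι = Pool.Agent.W534.numRank ops P.X d

end Pool.Agent.L7h85.SG
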