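import Pool.Agent.W552.RatBasis

/-!
# Signatures of rational forms on rational structures: definitions and statements
-/

set_option linter.unusedVariables false

universe u v w w'

namespace Pool.Agent.L7h85.SG

open Pool.Agent.W552 Module

section

variable {K : Type u} [Field K] {V : Type v} [AddCommGroup V] [Module K V]

/-- `y` is a maximal orthogonal family, with the nonzero squares `s`, of the elements with the
property `M`. -/
structure OF (M : V → Prop) (β : V →ₗ[K] V →ₗ[K] K) {ι : Type} (y : ι → V) (s : ι → ℚ) :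
    Prop where
  mem : ∀ i, M (y i)
  ne : ∀ i, s i ≠ 0
  sq : ∀ i, β (y i) (y i) = (s i : K)
  orth : ∀ i j, i ≠ j → β (y i) (y j) = 0
  max : ∀ u, M u → (∀ i, β u (y i) = 0) → β u u = 0

/-- The form `β` has the signature `σ` on the elements with the property `M`. -/
def HasSg (M : V → Prop) (β : V →ₗ[K] V →ₗ[K] K) (σ : ℤ) : Prop :=
  ∃ (ι : Type) (_ : Fintype ι) (y : ι → V) (s : ι → ℚ), OF M β y s ∧
    σ = ∑ i, ((SignType.sign (s i) : SignType) : ℤ)

/-- `M` is a rational structure on which `β` is rational and symmetric. -/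
structure RF (M : V → Prop) (β : V →ₗ[K] V →ₗ[K] K) : Prop where
  rat : RatSub K M
  val : ∀ x y, M x → M y → ∃ q : ℚ, β x y = (q : K)
  symm : ∀ x y, M x → M y → β x y = β y x

end

/-- [UNI] The signature is well defined (the law of inertia, see `W539.Ker.Inertia`). -/
def S_UNI : Prop := ∀ (K : Type u) [Field K] [CharZero K] (V : Type v) [AddCommGroup V]
  [Module K V] (M : V → Prop) (β : V →ₗ[K] V →ₗ[K] K), RF M β → ∀ σ σ' : ℤ, HasSg M β σ →
    HasSg M β σ' → σ = σ'

/-- [EXI] The signature exists. -/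
def S_EXI : Prop := ∀ (K : Type u) [Field K] [CharZero K] (V : Type v) [AddCommGroup V]
  [Module K V] [Module.Finite K V] (M : V → Prop) (β : V →ₗ[K] V →ₗ[K] K), RF M β →
    ∃ σ, HasSg M β σ

/-- [SUM] The signature is additive. -/
def S_SUM : Prop := ∀ (K : Type u) [Field K] [CharZero K] (V : Type v) [AddCommGroup V]
  [Module K V] (M M₁ M₂ : V → Prop) (β : V →ₗ[K] V →ₗ[K] K), RF M β → (∀ x, M₁ x → M x) →
    (∀ x, M₂ x → M x) → (∀ x, M x → ∃ y z, M₁ y ∧ M₂ z ∧ x = y + z) →
    (∀ y z, M₁ y → M₂ z → β y z = 0) → ∀ σ₁ σ₂ : ℤ, HasSg M₁ β σ₁ → HasSg M₂ β σ₂ →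
      HasSg M β (σ₁ + σ₂)

/-- [TRA] Transport of the signature. -/
def S_TRA : Prop := ∀ (K : Type u) [Field K] [CharZero K] (V : Type v) (V' : Type v)
  [AddCommGroup V] [Module K V] [AddCommGroup V'] [Module K V'] (M : V → Prop) (M' : V' → Prop)
  (β : V →ₗ[K] V →ₗ[K] K) (β' : V' →ₗ[K] V' →ₗ[K] K) (T : V → V') (c : ℚ), c ≠ 0 →
    (∀ x y, M x → M y → β' (T x) (T y) = (c : K) * β x y) → (∀ x, M x → M' (T x)) →
    (∀ x', M' x' → ∃ x, M x ∧ T x = x') → ∀ σ : ℤ, HasSg M β σ →
      HasSg M' β' ((SignType.sign c : SignType) * σ)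

/-- [BND] The signature is at most the dimension. -/
def S_BND : Prop := ∀ (K : Type u) [Field K] [CharZero K] (V : Type v) [AddCommGroup V]
  [Module K V] [Module.Finite K V] (M : V → Prop) (β : V →ₗ[K] V →ₗ[K] K) (U : Submodule K V),
    (∀ x, M x → x ∈ U) → ∀ σ : ℤ, HasSg M β σ → |σ| ≤ finrank K U

end Pool.Agent.L7h85.SG
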