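import Pool.Agent.L7h85.SG.Geo
import Pool.Agent.Y163.Idx
import Pool.Agent.L7h89.SG.Tw

/-!
# The signature law: assembly
-/

set_option linter.unusedVariables false
set_option linter.unusedSectionVars false

open CategoryTheory AlgebraicGeometry CategoryTheory.Limits

universe u v

namespace Pool.Agent.L7h85.SG

open Pool.Agent.H914 Pool.Agent.H914.VarClass Pool.Agent.H914.VarClass.Obj
  Pool.Agent.H914.WeilCohomology Pool.Agent.H281R3.HT Pool.Agent.W552 Pool.Agent.W539.Ker Module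

variable {k : Type u} [Field k] {𝒱 : VarClass k} {ops : CycleOps 𝒱}
  {W : WeilCohomology.{u, v} ops}

open Pool.Agent.L7h89.SG (TwT)

/-- [TWS], with the compatibility with the traces -/
def T_TWS (W : WeilCohomology.{u, v} ops) : Prop :=
  (∀ (P Q : PV W) (e : Module.End W.K (W.H P.X)) (g : Module.End W.K (W.H Q.X)),
    TwT P e Q g → ∀ σ : ℤ, Sg P e σ → Sg Q g σ) ∧
  (∀ (P : PV W) (e : Module.End W.K (W.H P.X)), TwT P e P e) ∧
  (∀ (P Q : PV W) (e : Module.End W.K (W.H P.X)) (g : Module.End W.K (W.H Q.X)),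
    TwT P e Q g → TwT Q g P e) ∧
  ∀ (P Q R : PV W) (e : Module.End W.K (W.H P.X)) (g : Module.End W.K (W.H Q.X))
    (l : Module.End W.K (W.H R.X)), TwT P e Q g → TwT Q g R l → TwT P e R l

/-- [TWX], with the compatibility with the traces -/
def T_TWX (hGD : S_GDP W) : Prop :=
  (∀ (P Q P' Q' : PV W) (e : Module.End W.K (W.H P.X)) (g : Module.End W.K (W.H Q.X))
    (e' : Module.End W.K (W.H P'.X)) (g' : Module.End W.K (W.H Q'.X)), TwT P e P' e' →
    TwT Q g Q' g' →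
      TwT (PV.prod hGD P Q) (extOp W e g) (PV.prod hGD P' Q') (extOp W e' g')) ∧
  (∀ (P Q : PV W) (e : Module.End W.K (W.H P.X)) (g : Module.End W.K (W.H Q.X)),
    e * P.h = P.h * e → g * Q.h = Q.h * g →
      TwT (PV.prod hGD P Q) (extOp W e g) (PV.prod hGD Q P) (extOp W g e)) ∧
  ∀ (P Q R : PV W) (e : Module.End W.K (W.H P.X)) (g : Module.End W.K (W.H Q.X))
    (l : Module.End W.K (W.H R.X)),
      TwT (PV.prod hGD (PV.prod hGD P Q) R) (extOp W (extOp W e g) l)
        (PV.prod hGD P (PV.prod hGD Q R)) (extOp W e (extOp W g l))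

/-- The signature. -/
noncomputable def sv (P : PV W) (e : Module.End W.K (W.H P.X)) : ℤ :=
  open Classical in if h : ∃ σ, Sg P e σ then h.choose else 0

lemma sv_spec (hEXI : S_EXI.{v, v}) (hRFM : S_RFM W) {P : PV W} {e : Module.End W.K (W.H P.X)}
    (he : Pj P e) : Sg P e (sv P e) := by
  have h : ∃ σ, Sg P e σ := hEXI W.K (W.H P.X) (Mid P e) P.b (hRFM P e he)
  rw [sv, dif_pos h]
  exact h.choose_spec

lemma sv_eq (hUNI : S_UNI.{v, v}) (hEXI : S_EXI.{v, v}) (hRFM : S_RFM W) {P : PV W}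
    {e : Module.End W.K (W.H P.X)} (he : Pj P e) {σ : ℤ} (h : Sg P e σ) : sv P e = σ :=
  hUNI W.K (W.H P.X) (Mid P e) P.b (hRFM P e he) _ _ (sv_spec hEXI hRFM he) h

section

variable (hGD : S_GDP W)

/-- The powers. -/
noncomputable def PV.pow (P : PV W) : ℕ → PV W
  | 0 => P
  | n + 1 => PV.prod hGD P (P.pow n)

/-- The towers. -/
noncomputable def tow (C Q : PV W) : ℕ → PV W
  | 0 => C
  | n + 1 => PV.prod hGD (tow C Q n) Q

/-- The idempotents on the towers. -/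
noncomputable def te (C Q : PV W) (e : Module.End W.K (W.H Q.X)) :
    ∀ n, Module.End W.K (W.H (tow hGD C Q n).X)
  | 0 => 1
  | n + 1 => extOp W (te C Q e n) e

variable {hGD}

lemma tow_succ (C Q : PV W) (n : ℕ) :
    tow hGD (PV.prod hGD C Q) Q n = tow hGD C Q (n + 1) := by
  induction n with
  | zero => rfl
  | succ n ih =>
    rw [tow, ih]
    rfl

lemma sv_one_congr {P R : PV W} (h : P = R) : sv P 1 = sv R 1 := by subst h; rfl

section Rec

variable (hUNI : S_UNI.{v, v}) (hEXI : S_EXI.{v, v}) (hBND : S_BND.{v, v}) (hRFM : S_RFM W)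
  (hEZ : S_EZ W) (hPJX : S_PJX hGD) (hADD : S_ADD hGD) (hSLO : S_SLO hGD) (hTWS : T_TWS W)
  (hTWX : T_TWX hGD) (hPOS : S_POS hGD)
  {Q : PV W} {z : W.H Q.X} {c : ℚ} (hc : c < 0) (hz : Mid Q 1 z) (hzz : Q.b z z = (c : W.K))

include hPJX in
lemma te_pj {C : PV W} {e : Module.End W.K (W.H Q.X)} (hC : Pj C 1) (he : Pj Q e) (n : ℕ) :
    Pj (tow hGD C Q n) (te hGD C Q e n) := by
  induction n with
  | zero => exact hC
  | succ n ih => exact hPJX _ _ _ _ ih he

include hPJX in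
lemma one_prod {P R : PV W} (hP : Pj P 1) (hR : Pj R 1) : Pj (PV.prod hGD P R) 1 := by
  have := hPJX P R 1 1 hP hR
  rwa [extOp_one] at this

include hUNI hEXI hRFM hEZ hPJX hADD hSLO hc hz hzz in
lemma slot {P : PV W} {e : Module.End W.K (W.H P.X)} (he : Pj P e) :
    sv (PV.prod hGD P Q) (extOp W e (1 - ez Q z c)) =
      sv (PV.prod hGD P Q) (extOp W e 1) + sv P e := by
  obtain ⟨h1, h2, h3, -⟩ := hEZ Q z c hc.ne hz hzz
  have h4 := hSLO P Q e z c hc.ne hz hzz he _ (sv_spec hEXI hRFM he)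
  have h5 := sv_spec hEXI hRFM (hPJX P Q e _ he h3)
  have h6 := hADD P Q e _ he h2 _ _ h4 h5
  have h7 := sv_eq hUNI hEXI hRFM (hPJX P Q e 1 he h1) h6
  have h8 : ((SignType.sign c : SignType) : ℤ) = -1 := by rw [sign_neg hc]; rfl
  rw [h7, h8]
  ring

include hTWS hTWX in
lemma tw_swap_last {A : PV W} (a : Module.End W.K (W.H A.X)) (g g' : Module.End W.K (W.H Q.X))
    (hg : g * Q.h = Q.h * g) (hg' : g' * Q.h = Q.h * g') :
    TwT (PV.prod hGD (PV.prod hGD A Q) Q) (extOp W (extOp W a g) g')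
      (PV.prod hGD (PV.prod hGD A Q) Q) (extOp W (extOp W a g') g) := by
  obtain ⟨-, hrefl, hsymm, htrans⟩ := hTWS
  obtain ⟨hX, hS, hA⟩ := hTWX
  exact htrans _ _ _ _ _ _ (hA A Q Q a g g')
    (htrans _ _ _ _ _ _ (hX _ _ _ _ _ _ _ _ (hrefl A a) (hS Q Q g g' hg hg'))
      (hsymm _ _ _ _ (hA A Q Q a g' g)))

include hTWS hTWX in
lemma tw_tow (C : PV W) {e : Module.End W.K (W.H Q.X)} (he : e * Q.h = Q.h * e) (n : ℕ) :
    TwT (PV.prod hGD (tow hGD C Q n) Q) (extOp W (te hGD C Q e n) 1)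
      (tow hGD (PV.prod hGD C Q) Q n) (te hGD (PV.prod hGD C Q) Q e n) := by
  obtain ⟨-, hrefl, hsymm, htrans⟩ := id hTWS
  induction n with
  | zero =>
    change TwT (PV.prod hGD C Q) (extOp W 1 1) (PV.prod hGD C Q) 1
    rw [extOp_one]
    exact hrefl _ _
  | succ n ih =>
    exact htrans _ _ _ _ _ _ (tw_swap_last hTWS hTWX _ e 1 he (by rw [one_mul, mul_one]))
      (hTWX.1 _ _ _ _ _ _ _ _ ih (hrefl Q e))

include hUNI hEXI hRFM hTWS in
lemma sv_tw {P R : PV W} {e : Module.End W.K (W.H P.X)} {g : Module.End W.K (W.H R.X)}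
    (he : Pj P e) (hg : Pj R g) (h : TwT P e R g) : sv P e = sv R g :=
  (sv_eq hUNI hEXI hRFM hg (hTWS.1 _ _ _ _ h _ (sv_spec hEXI hRFM he))).symm

include hUNI hEXI hRFM hEZ hPJX hADD hSLO hTWS hTWX hc hz hzz in
lemma rec_te {C : PV W} (hC : Pj C 1) (n : ℕ) :
    sv (tow hGD C Q (n + 1)) (te hGD C Q (1 - ez Q z c) (n + 1)) =
      sv (tow hGD (PV.prod hGD C Q) Q n) (te hGD (PV.prod hGD C Q) Q (1 - ez Q z c) n) +
        sv (tow hGD C Q n) (te hGD C Q (1 - ez Q z c) n) := by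
  obtain ⟨h1, h2, h3, -⟩ := hEZ Q z c hc.ne hz hzz
  have h4 := te_pj hPJX hC h3 n
  change sv (PV.prod hGD (tow hGD C Q n) Q) (extOp W (te hGD C Q (1 - ez Q z c) n)
    (1 - ez Q z c)) = _
  rw [slot hUNI hEXI hRFM hEZ hPJX hADD hSLO hc hz hzz h4]
  congr 1
  exact sv_tw hUNI hEXI hRFM hTWS (hPJX _ _ _ _ h4 h1)
    (te_pj hPJX (one_prod hPJX hC h1) h3 n) (tw_tow hTWS hTWX C h3.wt n)

include hUNI hEXI hRFM hEZ hPJX hADD hSLO hTWS hTWX hc hz hzz in
lemma le_te (n : ℕ) : ∀ {C : PV W}, Pj C 1 → (∀ j ≤ n, 0 ≤ sv (tow hGD C Q j) 1) →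
    sv (tow hGD C Q n) 1 ≤ sv (tow hGD C Q n) (te hGD C Q (1 - ez Q z c) n) ∧
      0 ≤ sv (tow hGD C Q n) (te hGD C Q (1 - ez Q z c) n) := by
  induction n with
  | zero =>
    intro C hC h
    have h0 := h 0 le_rfl
    exact ⟨le_rfl, h0⟩
  | succ n ih =>
    intro C hC h
    obtain ⟨h1, -, -, -⟩ := hEZ Q z c hc.ne hz hzz
    rw [rec_te hUNI hEXI hRFM hEZ hPJX hADD hSLO hTWS hTWX hc hz hzz hC n]
    have e1 := ih (C := PV.prod hGD C Q) (one_prod hPJX hC h1) (fun j hj => by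
      rw [sv_one_congr (tow_succ C Q j)]; exact h (j + 1) (by omega))
    have e2 := ih hC (fun j hj => h j (by omega))
    have e3 := sv_one_congr (tow_succ (hGD := hGD) C Q n)
    constructor
    · linarith [e1.1, e2.2]
    · linarith [e1.2, e2.2]

include hBND hRFM hEXI hPJX in
lemma sv_le {P : PV W} {e : Module.End W.K (W.H P.X)} (he : Pj P e) :
    |sv P e| ≤ finrank W.K (LinearMap.range e) :=
  hBND W.K (W.H P.X) (Mid P e) P.b (LinearMap.range e) (fun x hx => ⟨x, hx.2.2⟩) _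
    (sv_spec hEXI hRFM he)

lemma finrank_te (C : PV W) (e : Module.End W.K (W.H Q.X)) (n : ℕ) :
    finrank W.K (LinearMap.range (te hGD C Q e n)) =
      finrank W.K (W.H C.X) * finrank W.K (LinearMap.range e) ^ n := by
  induction n with
  | zero =>
    change finrank W.K (LinearMap.range (1 : Module.End W.K (W.H C.X))) = _
    rw [Module.End.one_eq_id, LinearMap.range_id, finrank_top, pow_zero, mul_one]
  | succ n ih =>
    change finrank W.K (LinearMap.range (extOp W (te hGD C Q e n) e)) = _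
    rw [Y163.finrank_range_extOp, ih, pow_succ, mul_assoc]

include hUNI hEXI hBND hRFM hEZ hPJX hADD hSLO hTWS hTWX hc hz hzz in
/-- The bound for towers. -/
lemma tower_bound {C : PV W} (hC : Pj C 1) (n : ℕ)
    (h : ∀ j ≤ n, 0 ≤ sv (tow hGD C Q j) 1) :
    sv (tow hGD C Q n) 1 ≤
      (finrank W.K (W.H C.X) * (finrank W.K (W.H Q.X) - 1) ^ n : ℕ) := by
  obtain ⟨h1, h2, h3, h4⟩ := hEZ Q z c hc.ne hz hzz
  have e1 := (le_te hUNI hEXI hRFM hEZ hPJX hADD hSLO hTWS hTWX hc hz hzz n hC h).1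
  have e2 := sv_le hEXI hBND hRFM hPJX (te_pj hPJX hC h3 n)
  rw [finrank_te] at e2
  have e3 : finrank W.K (LinearMap.range (1 - ez Q z c)) = finrank W.K (W.H Q.X) - 1 := by
    omega
  rw [e3] at e2
  exact e1.trans ((le_abs_self _).trans e2)

end Rec

/-! ### Powers -/

section Pow

variable (hUNI : S_UNI.{v, v}) (hEXI : S_EXI.{v, v}) (hBND : S_BND.{v, v}) (hRFM : S_RFM W)
  (hEZ : S_EZ W) (hPJX : S_PJX hGD) (hADD : S_ADD hGD) (hSLO : S_SLO hGD) (hTWS : T_TWS W)
  (hTWX : T_TWX hGD) (hPOS : S_POS hGD) {P : PV W} (hP : Pj P 1)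

/-- Isomorphic polarized varieties. -/
def Iso' (P Q : PV W) : Prop := TwT P 1 Q 1

include hTWS in
lemma iso_refl (P : PV W) : Iso' P P := hTWS.2.1 P 1

include hTWS in
lemma iso_symm {P Q : PV W} (h : Iso' P Q) : Iso' Q P := hTWS.2.2.1 _ _ _ _ h

include hTWS in
lemma iso_trans {P Q R : PV W} (h : Iso' P Q) (h' : Iso' Q R) : Iso' P R :=
  hTWS.2.2.2 _ _ _ _ _ _ h h'

include hTWX in
lemma iso_prod {P Q P' Q' : PV W} (h : Iso' P P') (h' : Iso' Q Q') :
    Iso' (PV.prod hGD P Q) (PV.prod hGD P' Q') := by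
  have := hTWX.1 _ _ _ _ _ _ _ _ h h'
  rwa [extOp_one, extOp_one] at this

include hTWX in
lemma iso_assoc (P Q R : PV W) :
    Iso' (PV.prod hGD (PV.prod hGD P Q) R) (PV.prod hGD P (PV.prod hGD Q R)) := by
  have h := hTWX.2.2 P Q R 1 1 1
  have e1 : extOp W (extOp W (1 : Module.End W.K (W.H P.X)) (1 : Module.End W.K (W.H Q.X)))
      (1 : Module.End W.K (W.H R.X)) = 1 := by rw [extOp_one, extOp_one]
  have e2 : extOp W (1 : Module.End W.K (W.H P.X)) (extOp W (1 : Module.End W.K (W.H Q.X))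
      (1 : Module.End W.K (W.H R.X))) = 1 := by rw [extOp_one, extOp_one]
  have h2 : TwT (PV.prod hGD (PV.prod hGD P Q) R)
      (1 : Module.End W.K (W.H ((P.X.prod Q.X).prod R.X))) (PV.prod hGD P (PV.prod hGD Q R))
      (1 : Module.End W.K (W.H (P.X.prod (Q.X.prod R.X)))) := by
    rw [← e1, ← e2]
    exact h
  exact h2

include hTWS hTWX in
lemma pow_add' (P : PV W) (m n : ℕ) :
    Iso' (PV.prod hGD (P.pow hGD m) (P.pow hGD n)) (P.pow hGD (m + n + 1)) := by
  induction m with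
  | zero => rw [zero_add]; exact iso_refl hTWS _
  | succ m ih =>
    refine iso_trans hTWS (iso_assoc hTWX _ _ _) ?_
    rw [show m + 1 + n + 1 = (m + n + 1) + 1 by ring]
    exact iso_prod hTWX (iso_refl hTWS P) ih

include hTWS hTWX in
lemma tow_pow (P : PV W) (a m j : ℕ) :
    Iso' (tow hGD (PV.prod hGD (P.pow hGD a) (P.pow hGD a))
      (PV.prod hGD (P.pow hGD m) (P.pow hGD m)) j)
      (PV.prod hGD (P.pow hGD (a + j * (m + 1))) (P.pow hGD (a + j * (m + 1)))) := by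
  have key : ∀ j, Iso' (tow hGD (PV.prod hGD (P.pow hGD a) (P.pow hGD a))
      (PV.prod hGD (P.pow hGD m) (P.pow hGD m)) j) (P.pow hGD (2 * a + 1 + j * (2 * m + 2))) := by
    intro j
    induction j with
    | zero =>
      rw [zero_mul, add_zero, two_mul]
      exact pow_add' hTWS hTWX P a a
    | succ j ih =>
      refine iso_trans hTWS (iso_prod hTWX ih (pow_add' hTWS hTWX P m m)) ?_
      have := pow_add' hTWS hTWX P (2 * a + 1 + j * (2 * m + 2)) (m + m + 1)
      rwa [show 2 * a + 1 + j * (2 * m + 2) + (m + m + 1) + 1 =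
        2 * a + 1 + (j + 1) * (2 * m + 2) by ring] at this
  refine iso_trans hTWS (key j) (iso_symm hTWS ?_)
  have := pow_add' hTWS hTWX P (a + j * (m + 1)) (a + j * (m + 1))
  rwa [show a + j * (m + 1) + (a + j * (m + 1)) + 1 = 2 * a + 1 + j * (2 * m + 2) by ring] at this

include hPJX hP in
lemma pow_pj (n : ℕ) : Pj (P.pow hGD n) 1 := by
  induction n with
  | zero => exact hP
  | succ n ih => exact one_prod hPJX hP ih

lemma finrank_one (X : 𝒱.Obj) :
    finrank W.K (LinearMap.range (1 : Module.End W.K (W.H X))) = finrank W.K (W.H X) := by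
  rw [Module.End.one_eq_id, LinearMap.range_id, finrank_top]

lemma finrank_prod (P Q : PV W) : finrank W.K (W.H (PV.prod hGD P Q).X) =
    finrank W.K (W.H P.X) * finrank W.K (W.H Q.X) := by
  have h := Y163.finrank_range_extOp (W := W) (1 : Module.End W.K (W.H P.X))
    (1 : Module.End W.K (W.H Q.X))
  rw [extOp_one, finrank_one, finrank_one, finrank_one] at h
  exact h

lemma finrank_pow (P : PV W) (n : ℕ) : finrank W.K (W.H (P.pow hGD n).X) =
    finrank W.K (W.H P.X) ^ (n + 1) := by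
  induction n with
  | zero => rw [zero_add, pow_one]; rfl
  | succ n ih =>
    change finrank W.K (W.H (PV.prod hGD P (P.pow hGD n)).X) = _
    rw [finrank_prod, ih, pow_succ _ (n + 1), mul_comm]

include hUNI hEXI hBND hRFM hEZ hPJX hADD hSLO hTWS hTWX hPOS hP in
/-- **The bound for the signatures.** -/
theorem power_bound (m : ℕ) {z : W.H (PV.prod hGD (P.pow hGD m) (P.pow hGD m)).X} {c : ℚ}
    (hc : c < 0) (hz : Mid (PV.prod hGD (P.pow hGD m) (P.pow hGD m)) 1 z)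
    (hzz : (PV.prod hGD (P.pow hGD m) (P.pow hGD m)).b z z = (c : W.K)) (n : ℕ) :
    sv (PV.prod hGD (P.pow hGD n) (P.pow hGD n)) 1 ≤
      ((finrank W.K (W.H P.X) ^ (n % (m + 1) + 1)) ^ 2 *
        ((finrank W.K (W.H P.X) ^ (m + 1)) ^ 2 - 1) ^ (n / (m + 1)) : ℕ) := by
  set a := n % (m + 1) with ha
  set j := n / (m + 1) with hj
  have hn : n = a + j * (m + 1) := by
    rw [ha, hj, mul_comm]; exact (Nat.mod_add_div n (m + 1)).symm
  have hpp : ∀ i, Pj (PV.prod hGD (P.pow hGD i) (P.pow hGD i)) 1 := fun i =>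
    one_prod hPJX (pow_pj hPJX hP i) (pow_pj hPJX hP i)
  have htow : ∀ i, sv (tow hGD (PV.prod hGD (P.pow hGD a) (P.pow hGD a))
      (PV.prod hGD (P.pow hGD m) (P.pow hGD m)) i) 1 =
      sv (PV.prod hGD (P.pow hGD (a + i * (m + 1))) (P.pow hGD (a + i * (m + 1)))) 1 := by
    intro i
    refine sv_tw hUNI hEXI hRFM hTWS ?_ (hpp _) (tow_pow hTWS hTWX P a m i)
    clear hn
    induction i with
    | zero => exact hpp a
    | succ i ih => exact one_prod hPJX ih (hpp m)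
  have h1 := tower_bound (hGD := hGD) hUNI hEXI hBND hRFM hEZ hPJX hADD hSLO hTWS hTWX hc hz hzz
    (hpp a) j (fun i _ => by
      rw [htow]
      exact (hPOS _ _ (sv_spec hEXI hRFM (hpp _))).1)
  rw [htow, ← hn, finrank_prod, finrank_prod, finrank_pow, finrank_pow, ← sq, ← sq] at h1
  exact h1

end Pow

end

end Pool.Agent.L7h85.SG
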