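import Pool.Agent.L7h85.SG.Asm
import Pool.Agent.L7h85.SG.Geo2
import Pool.Agent.Y163.TateB
import Pool.Agent.W552.FrobMain
import Pool.Agent.L7h32.SG.La
import Pool.Agent.L7h73.SG.Ads
import Pool.Agent.L7h73.SG.Pos
import Pool.Agent.L7h89.SG.Gdp
import Pool.Agent.L7h32.SG.Num

/-!
# The signature law: the end of the proof
-/

set_option linter.unusedVariables false
set_option linter.unusedSectionVars false

open CategoryTheory AlgebraicGeometry CategoryTheory.Limits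

universe u v

namespace Pool.Agent.L7h85.SG

open Pool.Agent.H914 Pool.Agent.H914.VarClass Pool.Agent.H914.VarClass.Obj
  Pool.Agent.H914.WeilCohomology Pool.Agent.H281R3.HT Pool.Agent.W552 Pool.Agent.W539.Ker Module
  Pool.Agent.Y163

variable {k : Type u} [Field k] {𝒱 : VarClass k} {ops : CycleOps 𝒱}
  {W : WeilCohomology.{u, v} ops}

/-- The power `P ^ (n + 1)` of a polarized variety, with the sum of the pull-backs of the divisor under
the projections. -/
noncomputable def polPow (ops : CycleOps 𝒱) (P : Polarized 𝒱) : ℕ → Polarized 𝒱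
  | 0 => P
  | n + 1 => P.prod ops (polPow ops P n)

/-! ### Operators of degree zero -/

lemma corr_proj {X : 𝒱.Obj} {c : W.H (X.prod X)} (hc : AS W _ c) {i : ℕ} {a : W.H X}
    (ha : a ∈ W.gr X i) :
    proj (W.isInternal X) i (W.corr c a) =
      W.corr (proj (W.isInternal (X.prod X)) (2 * X.dim) c) a := by
  refine AS.ind (p := fun c => proj (W.isInternal X) i (W.corr c a) =
      W.corr (proj (W.isInternal (X.prod X)) (2 * X.dim) c) a) ?_ ?_ hc
  · rintro j _ ⟨z, hz, rfl⟩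
    have h1 : W.corr (W.cl _ z) ∈ KOp W X X ((j : ℤ) - X.dim) :=
      KOp.gen (by ring) hz
    have h2 := KOp.isHom h1 i a (by rw [grZ_natCast]; exact ha)
    by_cases hj : j = X.dim
    · subst hj
      rw [proj_same _ (W.cl_mem hz)]
      rw [sub_self, mul_zero, add_zero, grZ_natCast] at h2
      rw [proj_same _ h2]
    · rw [proj_ne _ (W.cl_mem hz) (by omega), corr_zero, LinearMap.zero_apply]
      by_cases h3 : 0 ≤ (i : ℤ) + 2 * ((j : ℤ) - X.dim)
      · obtain ⟨l, hl⟩ := Int.eq_ofNat_of_zero_le h3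
        rw [hl, grZ_natCast] at h2
        rw [proj_ne _ h2 (by omega)]
      · rw [grZ_of_neg (by omega)] at h2
        rw [(Submodule.mem_bot _).1 h2, map_zero]
  · intro c d hc hd
    rw [corr_add, LinearMap.add_apply, map_add, map_add, hc, hd, corr_add, LinearMap.add_apply]

lemma kop_of_aop {X : 𝒱.Obj} {φ : Module.End W.K (W.H X)} (h : AOp W X X φ)
    (h0 : ∀ i, ∀ a ∈ W.gr X i, φ a ∈ W.gr X i) : φ ∈ KOp W X X 0 := by
  obtain ⟨c, hc, rfl⟩ := h
  have h1 : W.corr c = W.corr (proj (W.isInternal (X.prod X)) (2 * X.dim) c) := by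
    apply gr_ext (W.isInternal X)
    intro i a ha
    rw [← corr_proj hc ha, proj_same _ (h0 i a ha)]
  rw [h1]
  obtain ⟨z, hz, hz'⟩ := hc.proj X.dim
  rw [← hz']
  exact KOp.gen (by ring) hz

lemma par_kop (P : PV W) : par (W.isInternal P.X) ∈ KOp W P.X P.X 0 := by
  apply kop_of_aop P.gd.pa
  intro i a ha
  rw [par, scal_apply _ _ ha]
  exact Submodule.smul_mem _ _ ha

/-! ### Forms -/

lemma psd_of_pos {K : Type*} [Field K] [CharZero K] {V : Type*} [AddCommGroup V] [Module K V]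
    {M : V → Prop} {β : V →ₗ[K] V →ₗ[K] K} (hM : RF M β) {ι : Type} [Fintype ι] {y : ι → V}
    {s : ι → ℚ} (h : OF M β y s) (hs : ∀ i, 0 < s i) {x : V} (hx : M x) :
    ∃ q : ℚ, 0 ≤ q ∧ β x x = (q : K) := by
  classical
  choose a ha using fun i => hM.val x (y i) hx (h.mem i)
  have hsK : ∀ i, (s i : K) ≠ 0 := fun i => by exact_mod_cast (hs i).ne'
  set u : V := ∑ i, ((a i / s i : ℚ) : K) • y i with hu
  have hmem : ∀ t : Finset ι, M (∑ i ∈ t, ((a i / s i : ℚ) : K) • y i) := by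
    intro t
    induction t using Finset.induction_on with
    | empty => rw [Finset.sum_empty]; exact hM.rat.zero
    | insert i t hi ih =>
      rw [Finset.sum_insert hi]
      exact hM.rat.add (hM.rat.smul _ (h.mem i)) ih
  have huM : M u := hmem _
  have hneg : M (x - u) := by
    have h1 := hM.rat.smul (-1) huM
    have h2 := hM.rat.add hx h1
    have h3 : x + ((-1 : ℚ) : K) • u = x - u := by
      rw [Rat.cast_neg, Rat.cast_one, neg_smul, one_smul, sub_eq_add_neg]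
    rwa [h3] at h2
  have huy : ∀ j, β u (y j) = (a j : K) := by
    intro j
    rw [hu, map_sum, LinearMap.sum_apply, Finset.sum_eq_single j]
    · rw [map_smul, LinearMap.smul_apply, h.sq, smul_eq_mul, Rat.cast_div,
        div_mul_cancel₀ _ (hsK j)]
    · intro i _ hij
      rw [map_smul, LinearMap.smul_apply, h.orth i j hij, smul_zero]
    · intro hj
      exact absurd (Finset.mem_univ j) hj
  have h0 : β (x - u) (x - u) = 0 := by
    apply h.max _ hneg
    intro j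
    rw [map_sub, LinearMap.sub_apply, huy, ha, sub_self]
  have hux : β u x = β x u := hM.symm _ _ huM hx
  have huu : β u u = ((∑ i, a i ^ 2 / s i : ℚ) : K) := by
    have h1 : β u u = ∑ i, ((a i / s i : ℚ) : K) * β u (y i) := by
      conv_lhs => rw [hu, map_sum]
      apply Finset.sum_congr rfl
      intro i _
      rw [map_smul, smul_eq_mul]
    rw [h1, Rat.cast_sum]
    apply Finset.sum_congr rfl
    intro i _
    rw [huy]
    push_cast
    ring
  have hxu : β x u = ((∑ i, a i ^ 2 / s i : ℚ) : K) := by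
    rw [hu, map_sum, Rat.cast_sum]
    apply Finset.sum_congr rfl
    intro i _
    rw [map_smul, ha, smul_eq_mul]
    push_cast
    ring
  refine ⟨∑ i, a i ^ 2 / s i, Finset.sum_nonneg fun i _ => div_nonneg (sq_nonneg _) (hs i).le, ?_⟩
  have h1 : β (x - u) (x - u) = β x x - β x u - β u x + β u u := by
    simp only [map_sub, LinearMap.sub_apply]
    ring
  rw [h1, hux, hxu, huu] at h0
  linear_combination h0

/-! ### Powers -/

/-- The polarized variety. -/
def PV.toPol (P : PV W) : Polarized 𝒱 := ⟨P.X, P.D⟩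

section

variable {hGD : S_GDP W}

lemma toPol_prod (P Q : PV W) : (PV.prod hGD P Q).toPol = P.toPol.prod ops Q.toPol := rfl

lemma toPol_pow (P : PV W) (n : ℕ) : (P.pow hGD n).toPol = polPow ops P.toPol n := by
  induction n with
  | zero => rfl
  | succ n ih =>
    change (PV.prod hGD P (P.pow hGD n)).toPol = P.toPol.prod ops (polPow ops P.toPol n)
    rw [toPol_prod, ih]

lemma polPow_X (P : Polarized 𝒱) (n : ℕ) : (polPow ops P n).X = pw P.X n := by
  induction n with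
  | zero => rfl
  | succ n ih =>
    change P.X.prod (polPow ops P n).X = P.X.prod (pw P.X n)
    rw [ih]

lemma pow_X (P : PV W) (n : ℕ) : (P.pow hGD n).X = pw P.X n := by
  have h1 := congrArg Polarized.X (toPol_pow (hGD := hGD) P n)
  rw [polPow_X] at h1
  exact h1

lemma pow_dim (P : PV W) (n : ℕ) : (P.pow hGD n).X.dim = (n + 1) * P.X.dim := by
  rw [pow_X, dim_pw]

lemma prod_one_pos {P Q : PV W} (hP : ∃ r : ℚ, 0 < r ∧ P.b 1 1 = (r : W.K))
    (hQ : ∃ r : ℚ, 0 < r ∧ Q.b 1 1 = (r : W.K)) :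
    ∃ r : ℚ, 0 < r ∧ (PV.prod hGD P Q).b 1 1 = (r : W.K) := by
  obtain ⟨r, hr, h⟩ := hP
  obtain ⟨s, hs, h'⟩ := hQ
  refine ⟨r * s, mul_pos hr hs, ?_⟩
  have h1 := P.gd.fr.bf_ext Q.gd.fr 1 1 1 1
  have h2 : H281R3.HT.ext W (1 : W.H P.X) (1 : W.H Q.X) = 1 := by
    rw [H281R3.HT.ext, map_one, map_one, mul_one]
  rw [h2] at h1
  change bf W (P.X.prod Q.X) (ops.pull (fst P.X Q.X) P.D + ops.pull (snd P.X Q.X) Q.D)
    (extSum W P.f Q.f) 1 1 = _
  rw [h1, show bf W P.X P.D P.f 1 1 = (r : W.K) from h,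
    show bf W Q.X Q.D Q.f 1 1 = (s : W.K) from h', Rat.cast_mul]

lemma pow_one_pos {P : PV W} (hP : ∃ r : ℚ, 0 < r ∧ P.b 1 1 = (r : W.K)) (n : ℕ) :
    ∃ r : ℚ, 0 < r ∧ (P.pow hGD n).b 1 1 = (r : W.K) := by
  induction n with
  | zero => exact hP
  | succ n ih => exact prod_one_pos hP ih

end

/-! ### The bound -/

lemma num_bound {b r m n : ℕ} (hb : 0 < b) {S : ℤ}
    (h1 : S ≤ ((b ^ (n % (m + 1) + 1)) ^ 2 * ((b ^ (m + 1)) ^ 2 - 1) ^ (n / (m + 1)) : ℕ))
    (h2 : (b ^ 2) ^ (n + 1) ≤ r * (n + 2) ^ (b ^ 2)) :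
    (S : ℝ) ≤ (n + 2 : ℝ) ^ (b ^ 2) * (1 - 1 / (b : ℝ) ^ (2 * (m + 1))) ^ (n / (m + 1)) * r := by
  set a := n % (m + 1) with ha
  set j := n / (m + 1) with hj
  have hn : n = a + (m + 1) * j := (Nat.mod_add_div n (m + 1)).symm
  have hb1 : 1 ≤ (b ^ (m + 1)) ^ 2 := Nat.one_le_pow _ _ (pow_pos hb _)
  have hbR : (0 : ℝ) < (b : ℝ) ^ (2 * (m + 1)) := pow_pos (by exact_mod_cast hb) _
  have e1 : (S : ℝ) ≤ ((b : ℝ) ^ (a + 1)) ^ 2 * (((b : ℝ) ^ (m + 1)) ^ 2 - 1) ^ j := by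
    have h3 : ((((b ^ (a + 1)) ^ 2 * ((b ^ (m + 1)) ^ 2 - 1) ^ j : ℕ) : ℤ) : ℝ) =
        ((b : ℝ) ^ (a + 1)) ^ 2 * (((b : ℝ) ^ (m + 1)) ^ 2 - 1) ^ j := by
      rw [Int.cast_natCast, Nat.cast_mul, Nat.cast_pow, Nat.cast_pow, Nat.cast_pow,
        Nat.cast_sub hb1, Nat.cast_pow, Nat.cast_pow, Nat.cast_one]
    rw [← h3]
    exact_mod_cast h1
  have e2 : ((b : ℝ) ^ (a + 1)) ^ 2 * (((b : ℝ) ^ (m + 1)) ^ 2 - 1) ^ j =
      ((b : ℝ) ^ 2) ^ (n + 1) * (1 - 1 / (b : ℝ) ^ (2 * (m + 1))) ^ j := by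
    have h4 : ((b : ℝ) ^ (m + 1)) ^ 2 - 1 =
        (b : ℝ) ^ (2 * (m + 1)) * (1 - 1 / (b : ℝ) ^ (2 * (m + 1))) := by
      rw [mul_sub, mul_one, mul_one_div_cancel hbR.ne', ← pow_mul, mul_comm (m + 1) 2]
    rw [h4, mul_pow, ← mul_assoc]
    congr 1
    rw [← pow_mul, ← pow_mul, ← pow_mul, ← pow_add]
    congr 1
    conv_rhs => rw [hn]
    ring
  have e3 : ((b : ℝ) ^ 2) ^ (n + 1) ≤ r * (n + 2 : ℝ) ^ (b ^ 2) := by exact_mod_cast h2
  have e4 : (0 : ℝ) ≤ (1 - 1 / (b : ℝ) ^ (2 * (m + 1))) ^ j := by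
    apply pow_nonneg
    rw [sub_nonneg, div_le_one hbR]
    exact one_le_pow₀ (by exact_mod_cast hb)
  calc (S : ℝ) ≤ ((b : ℝ) ^ 2) ^ (n + 1) * (1 - 1 / (b : ℝ) ^ (2 * (m + 1))) ^ j := e1.trans e2.le
    _ ≤ (r * (n + 2 : ℝ) ^ (b ^ 2)) * (1 - 1 / (b : ℝ) ^ (2 * (m + 1))) ^ j :=
      mul_le_mul_of_nonneg_right e3 e4
    _ = _ := by ring

/-! ### The law -/

section Law

variable {hGD : S_GDP W} (hHDM : S_HDM W) (hRNK : S_RNK W)

lemma numRank_pow (P : PV W) (n : ℕ) :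
    Pool.Agent.W534.numRank ops (PV.prod hGD (P.pow hGD n) (P.pow hGD n)).X (P.pow hGD n).X.dim =
      mrank W P.X n := by
  rw [← numRank_sq (W := W)]
  have h1 : (PV.prod hGD (P.pow hGD n) (P.pow hGD n)).X = sq P.X n := by
    change (P.pow hGD n).X.prod (P.pow hGD n).X = (pw P.X n).prod (pw P.X n)
    rw [pow_X]
  rw [h1, pow_dim]

lemma sign_le_one (s : ℚ) : ((SignType.sign s : SignType) : ℤ) ≤ 1 := by
  rcases lt_trichotomy s 0 with h | h | h
  · rw [sign_neg h]; decide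
  · rw [h, sign_zero]; decide
  · rw [sign_pos h]; decide

include hGD hHDM hRNK in
/-- **The signature law.** -/
theorem sig_law [IsAlgClosed W.K] (P : PV W) (hpos : ∃ r : ℚ, 0 < r ∧ P.b 1 1 = (r : W.K)) :
    ∃ S r : ℕ → ℤ,
      (∀ n, S n = ∑ j ∈ Finset.range ((n + 1) * P.X.dim + 1),
        sig W ((polPow ops P.toPol n).prod ops (polPow ops P.toPol n)).X
          ((polPow ops P.toPol n).prod ops (polPow ops P.toPol n)).D j) ∧
      (∀ n, r n = Pool.Agent.W534.numRank ops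
        ((polPow ops P.toPol n).prod ops (polPow ops P.toPol n)).X ((n + 1) * P.X.dim)) ∧
      (∀ n, 0 < r n ∧ 0 ≤ S n ∧ S n ≤ r n) ∧
      (∀ n, ∀ j ≤ (n + 1) * P.X.dim,
        |sig W ((polPow ops P.toPol n).prod ops (polPow ops P.toPol n)).X
          ((polPow ops P.toPol n).prod ops (polPow ops P.toPol n)).D j| ≤ 2 * S n) ∧
      ∀ m : ℕ, (S m = r m ∧
          NumHodge ops (polPow ops P.toPol m).X (polPow ops P.toPol m).D ∧
          NumHodge ops ((polPow ops P.toPol m).prod ops (polPow ops P.toPol m)).X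
            ((polPow ops P.toPol m).prod ops (polPow ops P.toPol m)).D) ∨
        ∀ n : ℕ, (S n : ℝ) ≤ (n + 2 : ℝ) ^ (finrank W.K (W.H P.X) ^ 2) *
          (1 - 1 / (finrank W.K (W.H P.X) : ℝ) ^ (2 * (m + 1))) ^ (n / (m + 1)) * r n := by
  have hTWS : T_TWS W := Pool.Agent.L7h89.SG.s_TWS W
  have hTWX : T_TWX hGD := Pool.Agent.L7h89.SG.s_TWX hGD
  have hHDG : S_HDG W := Pool.Agent.L7h32.SG.s_HDG W
  have hNEG : S_NEG hGD := Pool.Agent.L7h32.SG.s_NEG hGD
  have hUNI : S_UNI.{v, v} := Pool.Agent.L7h32.SG.s_UNI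
  have hEXI : S_EXI.{v, v} := Pool.Agent.L7h32.SG.s_EXI
  have hSUM : S_SUM.{v, v} := Pool.Agent.L7h32.SG.s_SUM
  have hTRA : S_TRA.{v, v} := Pool.Agent.L7h32.SG.s_TRA
  have hBND : S_BND.{v, v} := Pool.Agent.L7h32.SG.s_BND
  have hRFM : S_RFM W := Pool.Agent.L7h73.SG.s_RFM
  have hEZ : S_EZ W := Pool.Agent.L7h73.SG.s_EZ
  have hPJX : S_PJX hGD := Pool.Agent.L7h73.SG.s_PJX hGD
  have hADD : S_ADD hGD := Pool.Agent.L7h73.SG.s_ADD hGD hSUM
  have hSLO : S_SLO hGD := Pool.Agent.L7h73.SG.s_SLO hGD hTRA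
  have hPOS : S_POS hGD := Pool.Agent.L7h73.SG.s_POS hGD hUNI
  have hP : Pj P 1 := ⟨AOp.one, one_mul 1, fun a b => rfl, by rw [one_mul, mul_one]⟩
  have hpp : ∀ i, Pj (PV.prod hGD (P.pow hGD i) (P.pow hGD i)) 1 := fun i =>
    one_prod hPJX (pow_pj hPJX hP i) (pow_pj hPJX hP i)
  have hSg := fun n => sv_spec hEXI hRFM (hpp n)
  have hposn := fun n => hPOS (P.pow hGD n) _ (hSg n)
  have htp : ∀ n, (PV.prod hGD (P.pow hGD n) (P.pow hGD n)).toPol =
      (polPow ops P.toPol n).prod ops (polPow ops P.toPol n) := fun n => by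
    rw [toPol_prod, toPol_pow]
  -- properties of polarized varieties
  have htr : ∀ (F : Polarized 𝒱 → Prop) (n : ℕ), F (PV.prod hGD (P.pow hGD n)
      (P.pow hGD n)).toPol → F ((polPow ops P.toPol n).prod ops (polPow ops P.toPol n)) :=
    fun F n h => by rwa [← htp]
  have hrk : ∀ n, Pool.Agent.W534.numRank ops
      ((polPow ops P.toPol n).prod ops (polPow ops P.toPol n)).X ((n + 1) * P.X.dim) =
      mrank W P.X n := by
    intro n
    rw [← htp, ← numRank_pow (hGD := hGD) P n, pow_dim]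
    rfl
  have hdim : ∀ n, (PV.prod hGD (P.pow hGD n) (P.pow hGD n)).X.dim = 2 * ((n + 1) * P.X.dim) := by
    intro n
    change ((P.pow hGD n).X.prod (P.pow hGD n).X).dim = _
    rw [dim_prod, pow_dim]
    ring
  have hb : 0 < finrank W.K (W.H P.X) := by
    have : Nontrivial (W.H P.X) := by
      by_contra hcon
      rw [not_nontrivial_iff_subsingleton] at hcon
      obtain ⟨r, hr, h⟩ := hpos
      rw [Subsingleton.elim (1 : W.H P.X) 0, map_zero] at h
      exact hr.ne' (by exact_mod_cast h.symm)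
    exact finrank_pos
  have hmpos : ∀ n, 0 < mrank W P.X n := by
    intro n
    have h1 := mrank_growth (par_kop P) n
    apply Nat.pos_of_ne_zero
    intro h0
    rw [h0, zero_mul] at h1
    have h2 : 0 < (finrank W.K (W.H P.X) ^ 2) ^ (n + 1) := by positivity
    omega
  have hOF := fun n => hSg n
  have hle : ∀ n, sv (PV.prod hGD (P.pow hGD n) (P.pow hGD n)) 1 ≤ (mrank W P.X n : ℤ) ∧
      (sv (PV.prod hGD (P.pow hGD n) (P.pow hGD n)) 1 = (mrank W P.X n : ℤ) ∧
        (∀ x, Mid (PV.prod hGD (P.pow hGD n) (P.pow hGD n)) 1 x → ∃ q : ℚ, 0 ≤ q ∧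
          (PV.prod hGD (P.pow hGD n) (P.pow hGD n)).b x x = (q : W.K)) ∨
      ∃ (z : W.H (PV.prod hGD (P.pow hGD n) (P.pow hGD n)).X) (c : ℚ), c < 0 ∧
        Mid (PV.prod hGD (P.pow hGD n) (P.pow hGD n)) 1 z ∧
        (PV.prod hGD (P.pow hGD n) (P.pow hGD n)).b z z = (c : W.K)) := by
    intro n
    obtain ⟨ι, hι, y, s, hF, hσ⟩ := hSg n
    have h1 := hRNK _ _ (hdim n) ι y s hF
    have h2 : Pool.Agent.W534.numRank ops (PV.prod hGD (P.pow hGD n) (P.pow hGD n)).X
        ((n + 1) * P.X.dim) = mrank W P.X n := by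
      rw [← numRank_pow (hGD := hGD) P n, pow_dim]
    rw [h2] at h1
    have h3 : ((∑ i : ι, (1 : ℤ)) : ℤ) = (mrank W P.X n : ℤ) := by
      rw [Finset.sum_const, Finset.card_univ, h1]
      simp
    refine ⟨?_, ?_⟩
    · rw [hσ, ← h3]
      exact Finset.sum_le_sum fun i _ => sign_le_one (s i)
    · by_cases hs : ∀ i, 0 < s i
      · refine Or.inl ⟨?_, fun x hx => psd_of_pos (hRFM _ _ (hpp n)) hF hs hx⟩
        rw [hσ, ← h3]
        apply Finset.sum_congr rfl
        intro i _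
        rw [sign_pos (hs i)]
        rfl
      · push Not at hs
        obtain ⟨i, hi⟩ := hs
        exact Or.inr ⟨y i, s i, lt_of_le_of_ne hi (hF.ne i), hF.mem i, hF.sq i⟩
  refine ⟨fun n => sv (PV.prod hGD (P.pow hGD n) (P.pow hGD n)) 1, fun n => mrank W P.X n,
    fun n => ?_, fun n => by rw [hrk], fun n => ⟨?_, (hposn n).1, (hle n).1⟩,
    fun n j hj => ?_, fun m => ?_⟩
  · have h1 := (hposn n).2.1
    rw [pow_dim] at h1
    exact htr (fun R => sv (PV.prod hGD (P.pow hGD n) (P.pow hGD n)) 1 =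
      ∑ j ∈ Finset.range ((n + 1) * P.X.dim + 1), sig W R.X R.D j) n h1
  · have := hmpos n
    change (0 : ℤ) < (mrank W P.X n : ℤ)
    exact_mod_cast this
  · have h1 := (hposn n).2.2 j (by rw [pow_dim]; exact hj)
    exact htr (fun R => |sig W R.X R.D j| ≤
      2 * sv (PV.prod hGD (P.pow hGD n) (P.pow hGD n)) 1) n h1
  · rcases (hle m).2 with ⟨h1, h2⟩ | ⟨z, c, hc, hz, hzz⟩
    · refine Or.inl ⟨h1, ?_, ?_⟩
      · have h3 : NumHodge ops (P.pow hGD m).X (P.pow hGD m).D := by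
          apply hHDG
          by_contra hcon
          push Not at hcon
          obtain ⟨x, hx, hx'⟩ := hcon
          obtain ⟨q, hq⟩ := (P.pow hGD m).gd.fr.bf_rat hx hx
          have hq0 : q < 0 := by
            by_contra h
            exact hx' q (not_lt.1 h) hq
          obtain ⟨z, c, hc, hz, hzz⟩ := hNEG (P.pow hGD m) x q hx hq0 hq
            (pow_one_pos hpos m)
          obtain ⟨q', hq', hqq⟩ := h2 z hz
          rw [hzz] at hqq
          have h4 : c = q' := by exact_mod_cast hqq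
          linarith
        have h4 : NumHodge ops (P.pow hGD m).toPol.X (P.pow hGD m).toPol.D := h3
        rwa [toPol_pow] at h4
      · exact htr (fun R => NumHodge ops R.X R.D) m (hHDM _ _ (hdim m) h2)
    · refine Or.inr fun n => ?_
      have h1 := power_bound hUNI hEXI hBND hRFM hEZ hPJX hADD hSLO hTWS hTWX hPOS hP m hc hz hzz n
      have h2 := num_bound hb h1 (mrank_growth (par_kop P) n)
      simpa only [Int.cast_natCast] using h2

end Law

end Pool.Agent.L7h85.SG
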