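import Pool.Agent.L7h85.SG.Abs
import Pool.Agent.L7h85.RL.G1
import Pool.Agent.W539.Ker.Final

/-!
# Signatures of the forms on the algebraic classes cut out by self-adjoint idempotents: statements
-/

set_option linter.unusedVariables false
set_option linter.unusedSectionVars false

open CategoryTheory AlgebraicGeometry CategoryTheory.Limits

universe u v

namespace Pool.Agent.L7h85.SG

open Pool.Agent.H914 Pool.Agent.H914.VarClass Pool.Agent.H914.VarClass.Obj
  Pool.Agent.H914.WeilCohomology Pool.Agent.H281R3.HT Pool.Agent.W552 Pool.Agent.W539.Ker Module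

variable {k : Type u} [Field k] {𝒱 : VarClass k} {ops : CycleOps 𝒱}

/-- A polarized variety with the operators of the Lefschetz theory. -/
structure PV (W : WeilCohomology.{u, v} ops) where
  X : 𝒱.Obj
  D : X.Cycles
  f : Module.End W.K (W.H X)
  gd : Gd W X D f

variable {W : WeilCohomology.{u, v} ops}

/-- [GDP] The product. -/
def S_GDP (W : WeilCohomology.{u, v} ops) : Prop := ∀ (X Y : 𝒱.Obj) (D : X.Cycles)
  (E : Y.Cycles) (f : Module.End W.K (W.H X)) (g : Module.End W.K (W.H Y)), Gd W X D f →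
    Gd W Y E g → Gd W (X.prod Y) (ops.pull (fst X Y) D + ops.pull (snd X Y) E) (extSum W f g)

/-- The form. -/
noncomputable abbrev PV.b (P : PV W) : W.H P.X →ₗ[W.K] W.H P.X →ₗ[W.K] W.K :=
  bf W P.X P.D P.f

/-- The weight operator. -/
noncomputable abbrev PV.h (P : PV W) : Module.End W.K (W.H P.X) :=
  wt (W.isInternal P.X) P.X.dim

/-- A self-adjoint algebraic idempotent of degree zero. -/
structure Pj (P : PV W) (e : Module.End W.K (W.H P.X)) : Prop where
  aop : AOp W P.X P.X e
  idem : e * e = e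
  sa : ∀ a b, P.b (e a) b = P.b a (e b)
  wt : e * P.h = P.h * e

/-- The (sums of) algebraic classes of the middle codimension fixed by `e`. -/
def Mid (P : PV W) (e : Module.End W.K (W.H P.X)) (x : W.H P.X) : Prop :=
  AS W P.X x ∧ P.h x = 0 ∧ e x = x

/-- The signature of the form on the classes fixed by `e`. -/
def Sg (P : PV W) (e : Module.End W.K (W.H P.X)) (σ : ℤ) : Prop := HasSg (Mid P e) P.b σ

/-- [RFM] -/
def S_RFM (W : WeilCohomology.{u, v} ops) : Prop := ∀ (P : PV W)
  (e : Module.End W.K (W.H P.X)), Pj P e → RF (Mid P e) P.b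

/-- The rank one idempotent attached to the class `z` with the square `c`. -/
noncomputable def ez (P : PV W) (z : W.H P.X) (c : ℚ) : Module.End W.K (W.H P.X) :=
  ((c : W.K)⁻¹) • (LinearMap.toSpanSingleton W.K (W.H P.X) z ∘ₗ P.b.flip z)

lemma ez_apply (P : PV W) (z : W.H P.X) (c : ℚ) (x : W.H P.X) :
    ez P z c x = ((c : W.K)⁻¹ * P.b x z) • z := by
  rw [ez, LinearMap.smul_apply, LinearMap.comp_apply, LinearMap.toSpanSingleton_apply,
    LinearMap.flip_apply, smul_smul]

/-- [EZ] The idempotent attached to a class. -/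
def S_EZ (W : WeilCohomology.{u, v} ops) : Prop := ∀ (P : PV W) (z : W.H P.X) (c : ℚ), c ≠ 0 →
  Mid P 1 z → P.b z z = (c : W.K) → Pj P 1 ∧ Pj P (ez P z c) ∧ Pj P (1 - ez P z c) ∧
    finrank W.K (LinearMap.range (1 - ez P z c)) + 1 = finrank W.K (W.H P.X)

section Prod

variable (hGD : S_GDP W)

include hGD in
/-- The product. -/
noncomputable def PV.prod (P Q : PV W) : PV W where
  X := P.X.prod Q.X
  D := ops.pull (fst P.X Q.X) P.D + ops.pull (snd P.X Q.X) Q.D
  f := extSum W P.f Q.f
  gd := hGD _ _ _ _ _ _ P.gd Q.gd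

/-- [PJX] External products of idempotents. -/
def S_PJX : Prop := ∀ (P Q : PV W) (e : Module.End W.K (W.H P.X))
  (g : Module.End W.K (W.H Q.X)), Pj P e → Pj Q g → Pj (PV.prod hGD P Q) (extOp W e g)

/-- [ADD] Additivity in the second factor. -/
def S_ADD : Prop := ∀ (P Q : PV W) (e : Module.End W.K (W.H P.X))
  (g : Module.End W.K (W.H Q.X)), Pj P e → Pj Q g → ∀ σ₁ σ₂ : ℤ,
    Sg (PV.prod hGD P Q) (extOp W e g) σ₁ → Sg (PV.prod hGD P Q) (extOp W e (1 - g)) σ₂ →
      Sg (PV.prod hGD P Q) (extOp W e 1) (σ₁ + σ₂)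

/-- [SLO] The part given by a class. -/
def S_SLO : Prop := ∀ (P Q : PV W) (e : Module.End W.K (W.H P.X)) (z : W.H Q.X) (c : ℚ), c ≠ 0 →
  Mid Q 1 z → Q.b z z = (c : W.K) → Pj P e → ∀ σ : ℤ, Sg P e σ →
    Sg (PV.prod hGD P Q) (extOp W e (ez Q z c)) ((SignType.sign c : SignType) * σ)

/-- The polarized varieties `P` and `Q`, with the operators `e` and `g`, are isomorphic. -/
def TwP (P : PV W) (e : Module.End W.K (W.H P.X)) (Q : PV W) (g : Module.End W.K (W.H Q.X)) :
    Prop :=
  P.X.dim = Q.X.dim ∧ ∃ (θ : P.X ⟶ Q.X) (η : Q.X ⟶ P.X), θ ≫ η = 𝟙 P.X ∧ η ≫ θ = 𝟙 Q.X ∧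
    W.map θ (W.cl Q.X Q.D) = W.cl P.X P.D ∧ (∀ a, W.map θ (Q.f a) = P.f (W.map θ a)) ∧
    ∀ a, W.map θ (g a) = e (W.map θ a)

/-- [TWS] The signature is invariant under isomorphisms, and isomorphism is an equivalence
relation. -/
def S_TWS (W : WeilCohomology.{u, v} ops) : Prop :=
  (∀ (P Q : PV W) (e : Module.End W.K (W.H P.X)) (g : Module.End W.K (W.H Q.X)),
    TwP P e Q g → ∀ σ : ℤ, Sg P e σ → Sg Q g σ) ∧
  (∀ (P : PV W) (e : Module.End W.K (W.H P.X)), TwP P e P e) ∧
  (∀ (P Q : PV W) (e : Module.End W.K (W.H P.X)) (g : Module.End W.K (W.H Q.X)),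
    TwP P e Q g → TwP Q g P e) ∧
  ∀ (P Q R : PV W) (e : Module.End W.K (W.H P.X)) (g : Module.End W.K (W.H Q.X))
    (l : Module.End W.K (W.H R.X)), TwP P e Q g → TwP Q g R l → TwP P e R l

/-- [TWX] Products, commutativity and associativity. -/
def S_TWX : Prop :=
  (∀ (P Q P' Q' : PV W) (e : Module.End W.K (W.H P.X)) (g : Module.End W.K (W.H Q.X))
    (e' : Module.End W.K (W.H P'.X)) (g' : Module.End W.K (W.H Q'.X)), TwP P e P' e' →
    TwP Q g Q' g' →
      TwP (PV.prod hGD P Q) (extOp W e g) (PV.prod hGD P' Q') (extOp W e' g')) ∧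
  (∀ (P Q : PV W) (e : Module.End W.K (W.H P.X)) (g : Module.End W.K (W.H Q.X)),
    e * P.h = P.h * e → g * Q.h = Q.h * g →
      TwP (PV.prod hGD P Q) (extOp W e g) (PV.prod hGD Q P) (extOp W g e)) ∧
  ∀ (P Q R : PV W) (e : Module.End W.K (W.H P.X)) (g : Module.End W.K (W.H Q.X))
    (l : Module.End W.K (W.H R.X)),
      TwP (PV.prod hGD (PV.prod hGD P Q) R) (extOp W (extOp W e g) l)
        (PV.prod hGD P (PV.prod hGD Q R)) (extOp W e (extOp W g l))

/-- [POS] The signature on the square of a polarized variety is the sum of the signatures of the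
forms of the standard conjecture of Hodge type in all codimensions; it is nonnegative, and the
single signatures are at most twice this number. -/
def S_POS : Prop := ∀ (P : PV W) (σ : ℤ), Sg (PV.prod hGD P P) 1 σ → 0 ≤ σ ∧
  σ = ∑ j ∈ Finset.range (P.X.dim + 1), sig W (PV.prod hGD P P).X (PV.prod hGD P P).D j ∧
  ∀ j ≤ P.X.dim, |sig W (PV.prod hGD P P).X (PV.prod hGD P P).D j| ≤ 2 * σ

end Prod

/-! ### Numerical equivalence -/

/-- The cycle `z` of codimension `c` is numerically equivalent to zero. -/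
def NumZero (ops : CycleOps 𝒱) (X : 𝒱.Obj) (c : ℕ) (z : X.Cycles) : Prop :=
  ∀ w, X.IsCyc (X.dim - c) w → X.V.degCycle (ops.mul z w) = 0

/-- **The numerical Hodge standard conjecture** for `X` and the divisor `D`: for `2 j ≤ n = dim X`,
every cycle `z` of codimension `j` with `D ^ (n - 2 j + 1) z` numerically equivalent to zero, which
is not numerically equivalent to zero itself, satisfies `(-1) ^ j z z D ^ (n - 2 j) > 0`. -/
def NumHodge (ops : CycleOps 𝒱) (X : 𝒱.Obj) (D : X.Cycles) : Prop :=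
  ∀ j, 2 * j ≤ X.dim → ∀ z, X.IsCyc j z →
    NumZero ops X (X.dim - j + 1) (divPow ops D (X.dim - 2 * j + 1) z) → ¬ NumZero ops X j z →
      0 < pairing ops X D j z z

/-- [HDG] The numerical Hodge standard conjecture follows if the form is nowhere negative. -/
def S_HDG (W : WeilCohomology.{u, v} ops) : Prop := ∀ P : PV W,
  (∀ x, AS W P.X x → ∃ q : ℚ, 0 ≤ q ∧ P.b x x = (q : W.K)) → NumHodge ops P.X P.D

/-- [NEG] If the form has a negative value on an algebraic class of `P`, and the degree of the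
power of the divisor is positive, then it has a negative value on an algebraic class of the middle
codimension on `P × P` (the product of a homogeneous part of `x` and of a power of the divisor). -/
def S_NEG (hGD : S_GDP W) : Prop := ∀ (P : PV W) (x : W.H P.X) (q : ℚ), AS W P.X x → q < 0 →
  P.b x x = (q : W.K) → (∃ r : ℚ, 0 < r ∧ P.b 1 1 = (r : W.K)) → ∃ (z : W.H (PV.prod hGD P P).X) (c : ℚ), c < 0 ∧
    Mid (PV.prod hGD P P) 1 z ∧ (PV.prod hGD P P).b z z = (c : W.K)

end Pool.Agent.L7h85.SG
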