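import Pool.Agent.L7h85.SG.Geo2
import Pool.Agent.L7h32.SG.Num

/-!
# The numerical Hodge standard conjecture in even dimension, from the middle classes
-/

set_option linter.unusedVariables false
set_option linter.unusedSectionVars false

open CategoryTheory AlgebraicGeometry CategoryTheory.Limits Finset

universe u v

namespace Pool.Agent.L7h85.SG

open Pool.Agent.H914 Pool.Agent.H914.VarClass Pool.Agent.H914.VarClass.Obj
  Pool.Agent.H914.WeilCohomology Pool.Agent.H281R3.HT Pool.Agent.W552 Pool.Agent.W539.Ker Module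

variable {k : Type u} [Field k] {𝒱 : VarClass k} {ops : CycleOps 𝒱}
  {W : WeilCohomology.{u, v} ops}

/-- The values of the form on the powers of `L` times a primitive algebraic class. -/
lemma prim_nonneg {P : PV W} {d : ℕ} (hd : P.X.dim = 2 * d)
    (hpos : ∀ x, Mid P 1 x → ∃ q : ℚ, 0 ≤ q ∧ P.b x x = (q : W.K)) {c : ℕ} (hc : 2 * c ≤ P.X.dim)
    {v : W.H P.X} (hv : v ∈ algClasses W P.X c)
    (hp : ((LinearMap.mulLeft W.K (W.cl P.X P.D)) ^ (P.X.dim - 2 * c + 1)) v = 0) (b : ℕ) :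
    ∃ q : ℚ, 0 ≤ q ∧ P.b (((LinearMap.mulLeft W.K (W.cl P.X P.D)) ^ b) v)
      (((LinearMap.mulLeft W.K (W.cl P.X P.D)) ^ b) v) = (q : W.K) := by
  have F := P.gd.fr
  set L := LinearMap.mulLeft W.K (W.cl P.X P.D) with hL
  set n := P.X.dim with hn
  by_cases hb : b ≤ n - 2 * c
  swap
  · refine ⟨0, le_rfl, ?_⟩
    rw [L_pow_gt (n := n) (i := 2 * c) hp (by omega), map_zero, Rat.cast_zero]
  have hform : ∀ b ≤ n - 2 * c, P.b ((L ^ b) v) ((L ^ b) v) =
      ((b.factorial * ((n - 2 * c - b).factorial : ℚ)⁻¹ : ℚ) : W.K) *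
        ((-1 : W.K) ^ c * W.tr P.X (v * (L ^ (n - 2 * c)) v)) := by
    intro b hb
    rw [show P.b ((L ^ b) v) ((L ^ b) v) = bf W P.X P.D P.f ((L ^ b) v) ((L ^ b) v) from rfl,
      bf_L_pow F (n := c) hc (alg_gr hv) hp (j := b) hb, L_pow_self F.hD,
      ← Module.End.mul_apply, ← pow_add, show b + (P.X.dim - 2 * c - b) = n - 2 * c by omega]
  obtain ⟨q, hq, hq'⟩ := hpos ((L ^ (d - c)) v) ⟨AS.of ((ap_alg F).map_L_pow (d - c) hv), by
    have h1 : (L ^ (d - c)) v ∈ W.gr P.X (2 * (c + (d - c))) :=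
      alg_gr ((ap_alg F).map_L_pow (d - c) hv)
    change wt (W.isInternal P.X) P.X.dim _ = 0
    rw [Fr.wt_gr h1, show 2 * (c + (d - c)) = P.X.dim by omega, sub_self, zero_smul], rfl⟩
  set τ := (-1 : W.K) ^ c * W.tr P.X (v * (L ^ (n - 2 * c)) v) with hτ
  rw [hform (d - c) (by omega)] at hq'
  set p : ℚ := (d - c).factorial * ((n - 2 * c - (d - c)).factorial : ℚ)⁻¹ with hp'
  have hp0 : 0 < p := by positivity
  have hτ' : τ = ((q / p : ℚ) : W.K) := by
    have hpK : (p : W.K) ≠ 0 := by exact_mod_cast hp0.ne'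
    rw [Rat.cast_div, eq_div_iff hpK, mul_comm]
    exact hq'
  refine ⟨(b.factorial * ((n - 2 * c - b).factorial : ℚ)⁻¹) * (q / p), by positivity, ?_⟩
  rw [hform b hb, hτ', ← Rat.cast_mul]

/-- The form is nowhere negative on the algebraic classes of one codimension. -/
lemma alg_nonneg {P : PV W} {d : ℕ} (hd : P.X.dim = 2 * d)
    (hpos : ∀ x, Mid P 1 x → ∃ q : ℚ, 0 ≤ q ∧ P.b x x = (q : W.K)) {l : ℕ}
    {x : W.H P.X} (hx : x ∈ algClasses W P.X l) :
    ∃ q : ℚ, 0 ≤ q ∧ P.b x x = (q : W.K) := by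
  have F := P.gd.fr
  obtain ⟨u, hu, hs⟩ := (ap_alg F).decomp (mulLeft_isHom F.hD) W_hbd hx
  set L := LinearMap.mulLeft W.K (W.cl P.X P.D) with hL
  set n := P.X.dim with hn
  have h1 : ∀ b ≤ l, ∃ q : ℚ, 0 ≤ q ∧ P.b ((L ^ b) (u b)) ((L ^ b) (u b)) = (q : W.K) := by
    intro b hb
    by_cases h0 : u b = 0
    · exact ⟨0, le_rfl, by rw [h0, map_zero, map_zero, Rat.cast_zero]⟩
    · exact prim_nonneg hd hpos ((hu b hb).2.1 h0) (hu b hb).1 (hu b hb).2.2 b
  choose! q hq0 hq using h1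
  have hcross : ∀ b ≤ l, ∀ b' ≤ l, b' ≠ b →
      P.b ((L ^ b') (u b')) ((L ^ b) (u b)) = 0 := by
    intro b hb b' hb' hne
    by_cases h0 : u b = 0
    · rw [h0, map_zero, map_zero]
    by_cases h0' : u b' = 0
    · rw [h0', map_zero, map_zero, LinearMap.zero_apply]
    have e1 := (hu b hb).2.1 h0
    have e2 := (hu b' hb').2.1 h0'
    by_cases hj : b ≤ n - 2 * (l - b)
    · rw [show P.b ((L ^ b') (u b')) ((L ^ b) (u b)) =
        bf W P.X P.D P.f ((L ^ b') (u b')) ((L ^ b) (u b)) from rfl,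
        bf_L_pow F (n := l - b) e1 (alg_gr (hu b hb).1) (hu b hb).2.2 (j := b) hj]
      have h3 : W.tr P.X ((L ^ b') (u b') * (L ^ (P.X.dim - 2 * (l - b) - b)) (u b)) = 0 := by
        rcases lt_or_gt_of_ne hne with h | h
        · rw [← L_pow_self F.hD, ← Module.End.mul_apply, ← pow_add,
            L_pow_gt (n := n) (i := 2 * (l - b')) (hu b' hb').2.2 (by omega), zero_mul, map_zero]
        · rw [L_pow_self F.hD, ← Module.End.mul_apply, ← pow_add,
            L_pow_gt (n := n) (i := 2 * (l - b)) (hu b hb).2.2 (by omega), mul_zero, map_zero]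
      rw [h3, mul_zero, mul_zero]
    · rw [L_pow_gt (n := n) (i := 2 * (l - b)) (hu b hb).2.2 (by omega), map_zero]
  refine ⟨∑ b ∈ range (l + 1), q b, Finset.sum_nonneg fun b hb => hq0 b (by
    rw [Finset.mem_range] at hb; omega), ?_⟩
  have h4 : P.b x x = P.b (∑ b ∈ range (l + 1), (L ^ b) (u b))
      (∑ b ∈ range (l + 1), (L ^ b) (u b)) := by rw [← hs]
  rw [h4, map_sum P.b, LinearMap.sum_apply, Rat.cast_sum]
  apply Finset.sum_congr rfl
  intro b hb
  rw [map_sum, Finset.sum_eq_single b, hq b (by rw [Finset.mem_range] at hb; omega)]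
  · intro b' hb' hne
    rw [Finset.mem_range] at hb hb'
    exact hcross b' (by omega) b (by omega) hne.symm
  · intro h0; exact absurd hb h0

theorem s_HDM (W : WeilCohomology.{u, v} ops) : S_HDM W := by
  intro P d hd hpos
  apply Pool.Agent.L7h32.SG.s_HDG
  intro x hx
  have F := P.gd.fr
  have h1 : ∀ j, ∃ s : ℚ, 0 ≤ s ∧ P.b (proj (W.isInternal P.X) (2 * j) x)
      (proj (W.isInternal P.X) (2 * j) x) = (s : W.K) := fun j =>
    alg_nonneg hd hpos (hx.proj j)
  choose s hs0 hs using h1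
  refine ⟨∑ j ∈ range (P.X.dim + 1), s j, Finset.sum_nonneg fun j _ => hs0 j, ?_⟩
  have h3 : P.b x x = P.b
      (∑ j ∈ range (P.X.dim + 1), proj (W.isInternal P.X) (2 * j) x)
      (∑ j ∈ range (P.X.dim + 1), proj (W.isInternal P.X) (2 * j) x) := by
    rw [← Fr.AS_sum hx]
  rw [h3, map_sum P.b, LinearMap.sum_apply, Rat.cast_sum]
  apply Finset.sum_congr rfl
  intro j hj
  rw [map_sum, Finset.sum_eq_single j, hs]
  · intro i _ hi
    exact F.bf_deg (proj_mem _ _ _) (proj_mem _ _ _) (by omega)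
  · intro h0; exact absurd hj h0

end Pool.Agent.L7h85.SG
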