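import Pool.Agent.L7h85.SG.Geo2
import Pool.Agent.L7h32.SG.La
import Pool.Agent.L7h73.SG.Prj

/-!
# Maximal orthogonal families have as many members as the rank of the intersection form
-/

set_option linter.unusedVariables false
set_option linter.unusedSectionVars false

open CategoryTheory AlgebraicGeometry CategoryTheory.Limits Finset

universe u v

namespace Pool.Agent.L7h85.SG

open Pool.Agent.H914 Pool.Agent.H914.VarClass Pool.Agent.H914.VarClass.Obj
  Pool.Agent.H914.WeilCohomology Pool.Agent.H281R3.HT Pool.Agent.W552 Pool.Agent.W539.Ker Module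
  Pool.Agent.W534

section

variable {K : Type*} [Field K] [CharZero K] {V : Type*} [AddCommGroup V] [Module K V]
  {M : V → Prop} {β : V →ₗ[K] V →ₗ[K] K}

/-- The members of a rational structure are, up to the radical, combinations of a maximal
orthogonal family. -/
lemma OF.expand (hM : RF M β) {ι : Type} [Fintype ι] {y : ι → V}
    {s : ι → ℚ} (h : OF M β y s) {x : V} (hx : M x) :
    ∃ c : ι → ℚ, ∀ u, M u → β x u = ∑ i, (c i : K) * β (y i) u := by
  classical
  have hsK : ∀ i, (s i : K) ≠ 0 := fun i => by exact_mod_cast h.ne i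
  -- the projection
  have key : ∀ x, M x → ∃ c : ι → ℚ, M (x - ∑ i, (c i : K) • y i) ∧
      ∀ j, β (x - ∑ i, (c i : K) • y i) (y j) = 0 := by
    intro x hx
    choose a ha using fun i => hM.val x (y i) hx (h.mem i)
    refine ⟨fun i => a i / s i, ?_, ?_⟩
    · have hmem : ∀ t : Finset ι, M (∑ i ∈ t, ((a i / s i : ℚ) : K) • y i) := by
        intro t
        induction t using Finset.induction_on with
        | empty => rw [Finset.sum_empty]; exact hM.rat.zero
        | insert i t hi ih =>
          rw [Finset.sum_insert hi]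
          exact hM.rat.add (hM.rat.smul _ (h.mem i)) ih
      have h1 := hM.rat.smul (-1) (hmem Finset.univ)
      have h2 := hM.rat.add hx h1
      rwa [Rat.cast_neg, Rat.cast_one, neg_smul, one_smul, ← sub_eq_add_neg] at h2
    · intro j
      rw [map_sub, LinearMap.sub_apply, map_sum, LinearMap.sum_apply, Finset.sum_eq_single j]
      · rw [map_smul, LinearMap.smul_apply, h.sq, smul_eq_mul, Rat.cast_div,
          div_mul_cancel₀ _ (hsK j), ha, sub_self]
      · intro i _ hij
        rw [map_smul, LinearMap.smul_apply, h.orth i j hij, smul_zero]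
      · intro hj
        exact absurd (Finset.mem_univ j) hj
  obtain ⟨c, hc, hcy⟩ := key x hx
  refine ⟨c, fun u hu => ?_⟩
  obtain ⟨b, hb, hby⟩ := key u hu
  set x' := x - ∑ i, (c i : K) • y i with hx'
  set u' := u - ∑ i, (b i : K) • y i with hu'
  have e1 : β x' x' = 0 := h.max _ hc hcy
  have e2 : β u' u' = 0 := h.max _ hb hby
  have e3 : β (x' + u') (x' + u') = 0 := by
    apply h.max _ (hM.rat.add hc hb)
    intro i
    rw [map_add, LinearMap.add_apply, hcy, hby, add_zero]
  have e4 : β x' u' = 0 := by
    rw [map_add, map_add, LinearMap.add_apply, LinearMap.add_apply, e1, e2,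
      hM.symm _ _ hb hc, zero_add, add_zero, ← two_mul] at e3
    exact (mul_eq_zero.1 e3).resolve_left two_ne_zero
  have e5 : β x' u = 0 := by
    have h1 : u = u' + ∑ i, (b i : K) • y i := by rw [hu', sub_add_cancel]
    rw [h1, map_add, e4, map_sum, zero_add]
    apply Finset.sum_eq_zero
    intro i _
    rw [map_smul, hcy, smul_zero]
  rw [hx', map_sub, LinearMap.sub_apply, sub_eq_zero] at e5
  rw [e5, map_sum, LinearMap.sum_apply]
  apply Finset.sum_congr rfl
  intro i _
  rw [map_smul, LinearMap.smul_apply, smul_eq_mul]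

end

variable {k : Type u} [Field k] {𝒱 : VarClass k} {ops : CycleOps 𝒱}
  {W : WeilCohomology.{u, v} ops}

lemma mid_alg {P : PV W} {d : ℕ} (hd : P.X.dim = 2 * d) {x : W.H P.X} (hx : Mid P 1 x) :
    x ∈ algClasses W P.X d := by
  apply hx.1.alg
  have h1 : wt (W.isInternal P.X) P.X.dim x = (0 : W.K) • x := by rw [zero_smul]; exact hx.2.1
  refine (mem_gr_of_wt (W.isInternal P.X) W_hbd h1).1 _ ?_
  rw [← hd, sub_self]

lemma alg_mid {P : PV W} {d : ℕ} (hd : P.X.dim = 2 * d) {x : W.H P.X}
    (hx : x ∈ algClasses W P.X d) : Mid P 1 x := by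
  refine ⟨AS.of hx, ?_, rfl⟩
  change wt (W.isInternal P.X) P.X.dim x = 0
  rw [Fr.wt_gr (alg_gr hx), ← hd, sub_self, zero_smul]

lemma st_mid {P : PV W} {d : ℕ} (hd : P.X.dim = 2 * d) {x : W.H P.X}
    (hx : x ∈ algClasses W P.X d) : st W P.X P.D P.f x ∈ algClasses W P.X d := by
  have F := P.gd.fr
  apply (F.st_AS (AS.of hx)).alg
  rw [st_apply (alg_gr hx)]
  apply Submodule.smul_mem
  have h1 := F.w_mem (i := 2 * d) (by omega) (alg_gr hx)
  rwa [show 2 * P.X.dim - 2 * d = 2 * d by omega] at h1

theorem s_RNK (W : WeilCohomology.{u, v} ops) : S_RNK W := by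
  classical
  intro P d hd ι _ y s h
  have hRF : RF (Mid P 1) P.b :=
    Pool.Agent.L7h73.SG.s_RFM P 1 ⟨AOp.one, one_mul 1, fun a b => rfl, by rw [one_mul, mul_one]⟩
  rw [numRank_eq (W := W) (by omega), show P.X.dim - d = d by omega]
  have hyU : ∀ i, y i ∈ spanCycles W P.X d := fun i => alg_mem_span (mid_alg hd (h.mem i))
  -- the form and the cup product
  have hbt : ∀ a b : W.H P.X, P.b a (st W P.X P.D P.f b) = W.tr P.X (a * b) := by
    intro a b
    rw [show P.b a (st W P.X P.D P.f b) = bf W P.X P.D P.f a (st W P.X P.D P.f b) from rfl,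
      bf_apply, P.gd.st_st_apply]
  -- the functionals of the family span the range
  have hspan : LinearMap.range (pair W P.X d d) =
      Submodule.span W.K (Set.range fun i => pair W P.X d d ⟨y i, hyU i⟩) := by
    apply le_antisymm
    · rintro _ ⟨⟨a, ha⟩, rfl⟩
      have ha' := ha
      rw [spanCycles_eq] at ha'
      have key : ∀ a (ha : a ∈ spanCycles W P.X d), a ∈ Submodule.span W.K (algClasses W P.X d) →
          pair W P.X d d ⟨a, ha⟩ ∈
            Submodule.span W.K (Set.range fun i => pair W P.X d d ⟨y i, hyU i⟩) := by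
        intro a ha ha'
        induction ha' using Submodule.span_induction with
        | mem x hx =>
          obtain ⟨c, hc⟩ := h.expand hRF (alg_mid hd hx)
          have h1 : pair W P.X d d ⟨x, ha⟩ =
              ∑ i, (c i : W.K) • pair W P.X d d ⟨y i, hyU i⟩ := by
            apply dual_ext
            intro w
            have h2 := hc _ (alg_mid hd (st_mid hd ⟨w.1, w.2, rfl⟩))
            rw [hbt] at h2
            rw [pair_apply, LinearMap.sum_apply, h2]
            apply Finset.sum_congr rfl
            intro i _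
            rw [LinearMap.smul_apply, pair_apply, hbt, smul_eq_mul]
          rw [h1]
          exact Submodule.sum_mem _ fun i _ => Submodule.smul_mem _ _
            (Submodule.subset_span ⟨i, rfl⟩)
        | zero =>
          have e1 : (⟨0, ha⟩ : spanCycles W P.X d) = 0 := rfl
          rw [e1, map_zero]
          exact Submodule.zero_mem _
        | add x z hx hz h1 h2 =>
          rw [← spanCycles_eq] at hx hz
          have e1 : (⟨x + z, ha⟩ : spanCycles W P.X d) = ⟨x, hx⟩ + ⟨z, hz⟩ := rfl
          rw [e1, map_add]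
          exact Submodule.add_mem _ (h1 hx) (h2 hz)
        | smul c x hx h1 =>
          rw [← spanCycles_eq] at hx
          have e1 : (⟨c • x, ha⟩ : spanCycles W P.X d) = c • ⟨x, hx⟩ := rfl
          rw [e1, map_smul]
          exact Submodule.smul_mem _ _ (h1 hx)
      exact key a ha ha'
    · rw [Submodule.span_le]
      rintro _ ⟨i, rfl⟩
      exact ⟨_, rfl⟩
  -- they are independent
  have hli : LinearIndependent W.K fun i => pair W P.X d d ⟨y i, hyU i⟩ := by
    rw [Fintype.linearIndependent_iff]
    intro c hc j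
    have h1 := congrArg (fun F => F ⟨st W P.X P.D P.f (y j),
      alg_mem_span (st_mid hd (mid_alg hd (h.mem j)))⟩) hc
    simp only [LinearMap.sum_apply, LinearMap.smul_apply, LinearMap.zero_apply, pair_apply,
      smul_eq_mul] at h1
    rw [Finset.sum_eq_single j] at h1
    · have h2 : W.tr P.X (y j * st W P.X P.D P.f (y j)) = (s j : W.K) := by
        rw [← h.sq j]; rfl
      rw [h2] at h1
      exact (mul_eq_zero.1 h1).resolve_right (by exact_mod_cast h.ne j)
    · intro i _ hij
      have h2 : W.tr P.X (y i * st W P.X P.D P.f (y j)) = 0 := by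
        rw [← h.orth i j hij]; rfl
      rw [h2, mul_zero]
    · intro hj
      exact absurd (Finset.mem_univ j) hj
  rw [kRank, hspan, finrank_span_eq_card hli]

end Pool.Agent.L7h85.SG
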